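import Mathlib
import Pool.Agent.H443.VF.App

/-!
# `p`-adic strong four exponentials: adjoining the logarithms of all conjugates of almost all integers
of number fields

Let `K_1, ..., K_k` be number fields (not necessarily distinct) and let `b_j` be a basis of `K_j` over
`ℚ`. For vectors `x_j` of integers put `α_j = ∑ x_ji b_ji ∈ K_j`; if `b_j` is an integral basis these
are the integers of `K_j`. Let `p` be a prime, `F` a field of algebraic numbers in the algebraic closure
`Ω_p` of `ℚ_p` (for instance all of them) and `V` any `F`-space of dimension at most `m` in `Ω_p`; its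
elements may be arbitrary. For almost all `(x_1, ..., x_k)` the space

  `V' = V + ∑ F log_p σ(α_j)`,  `σ` ALL the embeddings of `K_j` into `Ω_p`, `j = 1, ..., k`,

has dimension `dim V + [K_1 : ℚ] + ... + [K_k : ℚ]`, and every singular `2 × 2` matrix over `V'` with
`F`-linearly independent rows and `F`-linearly independent columns is a matrix over `V`. In particular
the strong four exponentials conjecture holds for all the matrices over `V'` if `V` is `0` or has
dimension one, for instance if `V` consists of the algebraic numbers.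

The number of exceptional `(x_1, ..., x_k)` with `|x_ji| ≤ N_j` is at most `ε ∏ (2 N_j + 1) ^ [K_j : ℚ]` if
all the `N_j` are at least `N₀`, and `N₀` depends neither on `V` and `F`, nor on the prime `p`, nor on the
ratios of the `N_j`. So for example for almost all integers `α` of a given number field `K` the conjecture
holds for all the matrices whose entries are linear forms with algebraic coefficients in `1` and in the
`[K : ℚ]` numbers `log_p σ(α)`.

Known before (`AlmostAllExtensions`): the case `K_1 = ... = K_k = ℚ`.

The proof.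
* `VF.Cube`, `VF.Wide`: a large cube of vectors of logarithms with linearly independent entries has a vertex
  which satisfies no polynomial relation of degree `≤ D` with coefficients in a given space of dimension
  `≤ n` over the algebraic numbers, with `n` arbitrary (evaluation determinants, the hyperplane case of
  the theorem of Waldschmidt and Roy, the theorem of Brumer).
* `VF.Val`: the conjugates of the ratios of the generators in a multiplicative cube of integers of `K`
  (constructed in `NF.Cub`) are multiplicatively independent in each field of characteristic zero, also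
  modulo a prime number.
* `VF.Sys`, `VF.Tup`: almost all integers, and almost all tuples, for an abstract logarithm; `VF.CInst`: the
  Iwasawa logarithm.
* `VF.Sing`, `VF.App`: a determinant which vanishes is identically zero as a polynomial in the new
  logarithms; a pencil of singular `2 × 2` matrices over `F` has a common kernel.
-/

set_option autoImplicit false

open NumberField Module

namespace Pool.Agent.Results.MP_dd0d16_nt.ConjugatesInNumberFields

/-- `L` is the Iwasawa `p`-adic logarithm on the algebraic closure of `ℚ_p`. -/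
def IsIwasawaLog (p : ℕ) [Fact p.Prime] (L : PadicAlgCl p → PadicAlgCl p) : Prop :=
  (∀ x y : PadicAlgCl p, x ≠ 0 → y ≠ 0 → L (x * y) = L x + L y) ∧
  L ((p : ℕ) : PadicAlgCl p) = 0 ∧
  ∀ z : PadicAlgCl p, ‖z‖ < 1 →
    HasSum (fun n : ℕ => (-1 : PadicAlgCl p) ^ n * z ^ (n + 1) / ((n : PadicAlgCl p) + 1))
      (L (1 + z))

/-- The element `∑ x_i b_i` of the number field `K`. -/
noncomputable def elt {K : Type} [Field K] [NumberField K] {ι : Type} [Fintype ι]
    (b : Module.Basis ι ℚ K) (x : ι → ℤ) : K := ∑ i, (x i : K) * b i

/-- The `F`-space generated by `V` and by the logarithms `L σ(α_j)`, where `σ` runs through all the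
embeddings of `K j` into the algebraic closure of `ℚ_p`, for all `j`. -/
noncomputable def Adj {p : ℕ} [Fact p.Prime] (L : PadicAlgCl p → PadicAlgCl p) {k : ℕ}
    {K : Fin k → Type} [∀ j, Field (K j)] {F : IntermediateField ℚ (PadicAlgCl p)}
    (V : Submodule F (PadicAlgCl p)) (α : ∀ j, K j) : Submodule F (PadicAlgCl p) :=
  V ⊔ Submodule.span F (Set.range fun z : Σ j : Fin k, (K j →+* PadicAlgCl p) => L (z.2 (α z.1)))

/-- The tuples of nonzero vectors of integers, the entries of `x j` being bounded by `N j`. -/
def Box {k : ℕ} (ι : Fin k → Type) (N : Fin k → ℕ) : Set (∀ j, ι j → ℤ) :=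
  {x | ∀ j, x j ≠ 0 ∧ ∀ i, |x j i| ≤ (N j : ℤ)}

/-- Every `2 × 2` matrix with entries in `V'`, not all in `V`, with `F`-linearly independent rows and
`F`-linearly independent columns, is regular. -/
def StrongFour {p : ℕ} [Fact p.Prime] {F : IntermediateField ℚ (PadicAlgCl p)}
    (V V' : Submodule F (PadicAlgCl p)) : Prop :=
  ∀ M : Matrix (Fin 2) (Fin 2) (PadicAlgCl p), (∀ i j, M i j ∈ V') → (∃ i j, M i j ∉ V) →
    LinearIndependent F (fun i : Fin 2 => fun j : Fin 2 => M i j) →
    LinearIndependent F (fun j : Fin 2 => fun i : Fin 2 => M i j) → M.det ≠ 0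

/-- **Main result.** -/
theorem result (k m : ℕ) (K : Fin k → Type) [∀ j, Field (K j)] [∀ j, NumberField (K j)]
    (ι : Fin k → Type) [∀ j, Fintype (ι j)] (b : ∀ j, Module.Basis (ι j) ℚ (K j))
    (ε : ℝ) (hε : 0 < ε) :
    ∃ N₀ : ℕ, ∀ N : Fin k → ℕ, (∀ j, N₀ ≤ N j) →
      ∀ (p : ℕ) [Fact p.Prime] (L : PadicAlgCl p → PadicAlgCl p), IsIwasawaLog p L →
      ∀ F : IntermediateField ℚ (PadicAlgCl p), F ≤ algebraicClosure ℚ (PadicAlgCl p) →
      ∀ V : Submodule F (PadicAlgCl p), Module.Finite F V → finrank F V ≤ m →
        ({x ∈ Box ι N | ¬ (finrank F (Adj L V fun j => elt (b j) (x j)) =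
              finrank F V + ∑ j, finrank ℚ (K j) ∧
            StrongFour V (Adj L V fun j => elt (b j) (x j)))}.ncard : ℝ) ≤
          ε * ∏ j, (2 * (N j : ℝ) + 1) ^ finrank ℚ (K j) := by
  classical
  obtain ⟨N₀, hN₀⟩ := Pool.Agent.H443.VF.ext K ι b m ε hε
  refine ⟨N₀, fun N hN => ?_⟩
  intro p _ L hL F hF V hVf hVm
  have hL' : Pool.Agent.W245.PB.IsIwasawaLog p L := ⟨hL.1, hL.2.1, hL.2.2⟩
  have hsub : {x ∈ Box ι N | ¬ (finrank F (Adj L V fun j => elt (b j) (x j)) =
              finrank F V + ∑ j, finrank ℚ (K j) ∧
            StrongFour V (Adj L V fun j => elt (b j) (x j)))} ⊆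
      ((Fintype.piFinset fun j => Pool.Agent.H443.VF.box (ι j) (N j) :
        Finset (∀ j, ι j → ℤ)) : Set (∀ j, ι j → ℤ)) := by
    intro x hx
    rw [Finset.mem_coe, Fintype.mem_piFinset]
    intro j
    rw [Pool.Agent.H443.VF.mem_box]
    exact (hx.1 j).2
  have hfin := (Finset.finite_toSet _).subset hsub
  rw [Set.ncard_eq_toFinset_card _ hfin]
  refine hN₀ N hN (PadicAlgCl p) (Pool.Agent.H443.VF.pSys hL') F
    (fun c => mem_algebraicClosure_iff.1 (hF c.2)) V hVf hVm _ ?_ ?_
  · intro x hx
    exact Finset.mem_coe.1 (hsub ((Set.Finite.mem_toFinset _).1 hx))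
  · intro x hx
    have hx' := (Set.Finite.mem_toFinset _).1 hx
    refine ⟨fun j => (hx'.1 j).1, fun z => L (z.2 (elt (b z.1) (x z.1))), fun z => ⟨0, ?_⟩,
      fun h => hx'.2 ⟨h.1, fun M hM hV hr hc => h.2.2 M hM hV hr hc⟩⟩
    show _ = L _ + _
    rw [Int.cast_zero, zero_mul, add_zero]
    rfl

end Pool.Agent.Results.MP_dd0d16_nt.ConjugatesInNumberFields
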