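import Pool.Agent.H512.CJ.Even

/-!
# `p`-adic strong four exponentials: matrices of conjugates of one linear form

Let `𝓛` be the space of the linear combinations, with algebraic coefficients, of `1` and of values of the Iwasawa
logarithm at algebraic numbers. We prove the `p`-adic strong four exponentials conjecture for the matrices whose
entries are algebraic numbers or algebraic multiples of conjugates, over a field `K` which contains `ℚ_p`, of ONE
element `x` of `𝓛`, if the group is commutative, with the only possible exception of the matrices both of whose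
diagonals are of the form `κ, κ'` or `κ g x, κ' g h x` with `h` of order two.

Idea of the proof. Let `D` be the group, and let `W` be the multiplicative group of `F` modulo the algebraic numbers,
a torsion free module over the group ring of `D`. A vanishing determinant gives a relation `x + ρ x = σ x + τ x` in
`W` (written additively). As `W ⊗ ℚ` is a module over the RATIONAL group ring of a commutative group, the adjoint
relation `x + ρ⁻¹ x = σ⁻¹ x + τ⁻¹ x` also holds (the operators are normal for an invariant scalar product), and both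
together give `(σ + τ) (1 - θ) x = 0` and `(1 + ρ) (1 - θ) x = 0` for `θ = ρ σ⁻¹ τ⁻¹`.
* If `θ = 1`, i.e. `ρ = σ τ` (this is so if `ρ` or `μ = σ⁻¹ τ` has odd order), then `(1 - σ) (1 - τ) x = 0`: the quotient
  `s = τ x / x` is an eigenvector of `σ`, so that `s x`, `s σ x`, `s σ² x` are in `𝓛`, in contradiction to the strong six
  exponentials theorem for the `p`-adic logarithm (library: `Pool.Agent.W254.PA`, `Pool.Agent.X148.TR`), unless
  `σ² = 1`; by symmetry `τ² = 1`, and then the quotients on the diagonals are equal to `σ τ`, of order at most two.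
* If `θ ≠ 1`, then `s = θ x / x` satisfies `s ρ(s) ∈ ℚ̄`, `s μ(s) ∈ ℚ̄`, and `s x`, `s θ ρ x`, `s ρ² x` are in `𝓛`; hence
  `ρ² = 1`, and `μ² = 1`.
Constant entries give the relations `x + ρ x = 0` (then `ρ` has order two) and `x + ρ x = σ x`; then `ρ = σ²` by the
adjoint relation, and `s = σ⁻¹ x / x` has `s`, `s x`, `s σ x` in `𝓛`, a contradiction.
-/

set_option autoImplicit false

namespace Pool.Agent.Results.MP_dd0d16_nt.ConjugatesOfOneForm

/-- `L` is the Iwasawa `p`-adic logarithm on the algebraic closure of `ℚ_p`. -/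
def IsIwasawaLog (p : ℕ) [Fact p.Prime] (L : PadicAlgCl p → PadicAlgCl p) : Prop :=
  (∀ x y : PadicAlgCl p, x ≠ 0 → y ≠ 0 → L (x * y) = L x + L y) ∧
  L ((p : ℕ) : PadicAlgCl p) = 0 ∧
  ∀ z : PadicAlgCl p, ‖z‖ < 1 →
    HasSum (fun n : ℕ => (-1 : PadicAlgCl p) ^ n * z ^ (n + 1) / ((n : PadicAlgCl p) + 1))
      (L (1 + z))

/-- The algebraic numbers in the algebraic closure of `ℚ_p`. -/
noncomputable abbrev Qb (p : ℕ) [Fact p.Prime] : IntermediateField ℚ (PadicAlgCl p) :=
  algebraicClosure ℚ (PadicAlgCl p)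

/-- The linear combinations with algebraic coefficients of `1` and of the values of `L` at nonzero
algebraic numbers. -/
noncomputable def LogForms (p : ℕ) [Fact p.Prime] (L : PadicAlgCl p → PadicAlgCl p) :
    Submodule (Qb p) (PadicAlgCl p) :=
  Submodule.span (Qb p) ({1} ∪ {z | ∃ α : PadicAlgCl p, α ≠ 0 ∧ IsAlgebraic ℚ α ∧ z = L α})

/-- `v 1, v h` are linearly independent over `k` for `h ≠ 1`, and `v 1, v h, v (h ^ 2)` for `h ^ 2 ≠ 1`. -/
def Generic (k : Type) [Field k] {E : Type} [Field E] [Algebra k E] {D : Type} [Group D] (v : D → E) : Prop :=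
  (∀ h : D, h ≠ 1 → LinearIndependent k ![v 1, v h]) ∧
    ∀ h : D, h * h ≠ 1 → LinearIndependent k ![v 1, v h, v (h * h)]

/-- Any three conjugates are independent over `k`: `v 1, v g, v h` for different `1, g, h`. -/
def ThreeFree (k : Type) [Field k] {E : Type} [Field E] [Algebra k E] {D : Type} [Group D] (v : D → E) : Prop :=
  ∀ g h : D, g ≠ 1 → h ≠ 1 → g ≠ h → LinearIndependent k ![v 1, v g, v h]

/-- An exceptional pair: `1` and `1`, or `v g` and `v (g h)` with `h` of order two. -/
def Exceptional {D : Type} [Group D] : Option D → Option D → Prop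
  | none, none => True
  | some g, some k => g⁻¹ * k ≠ 1 ∧ (g⁻¹ * k) * (g⁻¹ * k) = 1
  | none, some _ => False
  | some _, none => False

/-- The number `1` (for `none`) or the number `v g` (for `some g`). -/
def withOne {E : Type} [Field E] {D : Type} (v : D → E) : Option D → E
  | none => 1
  | some g => v g

/-- If the rows of `M` are linearly independent over the algebraic numbers, and the columns also, then `M` has rank
two. -/
def StrongFour (p : ℕ) [Fact p.Prime] (M : Matrix (Fin 2) (Fin 2) (PadicAlgCl p)) : Prop :=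
  LinearIndependent (Qb p) (fun i : Fin 2 => fun j : Fin 2 => M i j) →
    LinearIndependent (Qb p) (fun j : Fin 2 => fun i : Fin 2 => M i j) → M.det ≠ 0

/-- **Matrices of conjugates of one linear form.** Let `K` be a field between `ℚ_p` and its algebraic closure, `F / K`
finite with commutative group `D` of automorphisms. Let `v g = g x`, where `x ∈ F` is a transcendental linear
combination of `1` and `p`-adic logarithms of algebraic numbers, with algebraic coefficients; or let
`v g = log (g α)`, where `α ∈ F` is algebraic over `ℚ`, `log α ≠ 0`. Assume that `v 1, v h` are linearly independent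
over the algebraic numbers (in the second case: over `ℚ`) for `h ≠ 1`, and `v 1, v h, v (h ^ 2)` for `h ^ 2 ≠ 1`.

(1) If `D` has odd order, the strong four exponentials conjecture is true for all matrices `(κ_ij u_ij)` with
algebraic `κ_ij`, where each `u_ij` is `1` or one of the `v g`.

(2) In general it is true for the matrices `(κ_ij v g_ij)` if `g_00⁻¹ g_11` or `g_01⁻¹ g_10` has odd order.

(3) Assume that any three different numbers among `1` and the `v g` are linearly independent over the algebraic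
numbers, or that the `v g` are logarithms, and any three different ones are linearly independent over `ℚ`. Then it is
true for all matrices `(κ_ij u_ij)` with algebraic `κ_ij`, where each `u_ij` is `1` or one of the `v g`, unless both
diagonals are exceptional pairs: `1, 1` or `v g, v (g h)` with `h` of order two. -/
theorem result (p : ℕ) [Fact p.Prime] (L : PadicAlgCl p → PadicAlgCl p) (hL : IsIwasawaLog p L)
    (K : IntermediateField ℚ_[p] (PadicAlgCl p)) (F : IntermediateField K (PadicAlgCl p))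
    [FiniteDimensional K F] (hab : ∀ g h : F ≃ₐ[K] F, g * h = h * g) (v : (F ≃ₐ[K] F) → PadicAlgCl p)
    (hv : (∃ x : F, (x : PadicAlgCl p) ∈ LogForms p L ∧ Transcendental ℚ (x : PadicAlgCl p) ∧
        (∀ g, v g = ((g x : F) : PadicAlgCl p)) ∧ Generic (Qb p) v) ∨
      (∃ α : F, α ≠ 0 ∧ IsAlgebraic ℚ (α : PadicAlgCl p) ∧ L (α : PadicAlgCl p) ≠ 0 ∧
        (∀ g, v g = L ((g α : F) : PadicAlgCl p)) ∧ Generic ℚ v)) (κ : Fin 2 → Fin 2 → Qb p) :
    (Odd (Nat.card (F ≃ₐ[K] F)) → ∀ c : Fin 2 → Fin 2 → Option (F ≃ₐ[K] F),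
      StrongFour p (Matrix.of fun i j => κ i j • withOne v (c i j))) ∧
    (∀ g : Fin 2 → Fin 2 → (F ≃ₐ[K] F),
      Odd (orderOf ((g 0 0)⁻¹ * g 1 1)) ∨ Odd (orderOf ((g 0 1)⁻¹ * g 1 0)) →
      StrongFour p (Matrix.of fun i j => κ i j • v (g i j))) ∧
    ((ThreeFree (Qb p) v ∧ ∀ h, h ≠ 1 → LinearIndependent (Qb p) ![1, v 1, v h]) ∨
        (ThreeFree ℚ v ∧ ∃ α : F, α ≠ 0 ∧ IsAlgebraic ℚ (α : PadicAlgCl p) ∧
          ∀ g, v g = L ((g α : F) : PadicAlgCl p)) →
      ∀ c : Fin 2 → Fin 2 → Option (F ≃ₐ[K] F),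
        ¬ (Exceptional (c 0 0) (c 1 1) ∧ Exceptional (c 0 1) (c 1 0)) →
        StrongFour p (Matrix.of fun i j => κ i j • withOne v (c i j))) := by
  have hL' : Pool.Agent.W245.PB.IsIwasawaLog p L := ⟨hL.1, hL.2.1, hL.2.2⟩
  have hV : Pool.Agent.X148.TR.Two (LogForms p L) :=
    Pool.Agent.X148.TR.Two.of_hyp (Pool.Agent.W254.PA.hyp_padic hL')
  have hσ : ∀ σ : PadicAlgCl p ≃ₐ[ℚ_[p]] PadicAlgCl p, ∀ v ∈ LogForms p L,
      σ v ∈ LogForms p L := fun σ v hv => Pool.Agent.E8helper92.PG.logForms_galois hL' σ hv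
  have hone : (1 : PadicAlgCl p) ∈ LogForms p L := Submodule.subset_span (Or.inl rfl)
  have ne : ∀ {α : F}, α ≠ 0 → ∀ h : F ≃ₐ[K] F, ((h α : F) : PadicAlgCl p) ≠ 0 := fun hα0 h e =>
    (map_ne_zero h).2 hα0 (Subtype.ext e)
  have al : ∀ {α : F}, IsAlgebraic ℚ (α : PadicAlgCl p) → ∀ h : F ≃ₐ[K] F,
      IsAlgebraic ℚ ((h α : F) : PadicAlgCl p) := fun halg h => Pool.Agent.H512.CJ.alg_gal h halg
  -- in part (3) the second case is contained in the first one
  have hthree : ((ThreeFree (Qb p) v ∧ ∀ h, h ≠ 1 → LinearIndependent (Qb p) ![1, v 1, v h]) ∨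
        (ThreeFree ℚ v ∧ ∃ α : F, α ≠ 0 ∧ IsAlgebraic ℚ (α : PadicAlgCl p) ∧
          ∀ g, v g = L ((g α : F) : PadicAlgCl p))) → (∀ h, h ≠ 1 → LinearIndependent (Qb p) ![v 1, v h]) →
      ThreeFree (Qb p) v ∧ ∀ h, h ≠ 1 → LinearIndependent (Qb p) ![1, v 1, v h] := by
    rintro (h | ⟨h, α, hα0, halg, hvα⟩) hpair
    · exact h
    · refine ⟨?_, ?_⟩
      · intro g k hg hk hgk
        have h3 := h g k hg hk hgk
        rw [hvα, hvα, hvα] at h3 ⊢
        exact Pool.Agent.H512.CJ.indep_three hL' (ne hα0 1) (ne hα0 g) (ne hα0 k) (al halg 1) (al halg g)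
          (al halg k) h3
      · intro g hg
        have h3 := hpair g hg
        have h4 : LinearIndependent ℚ ![v 1, v g] := by
          rw [LinearIndependent.pair_iff] at h3 ⊢
          intro s t hst
          have h5 := h3 (algebraMap ℚ (Qb p) s) (algebraMap ℚ (Qb p) t) (by
            rw [algebraMap_smul, algebraMap_smul]
            exact hst)
          exact ⟨(map_eq_zero _).1 h5.1, (map_eq_zero _).1 h5.2⟩
        rw [hvα, hvα] at h4 ⊢
        exact Pool.Agent.H512.CJ.indep_one_two hL' (ne hα0 1) (ne hα0 g) (al halg 1) (al halg g) h4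
  -- the second case is contained in the first one
  obtain ⟨x, hx, hxt, hvx, h1, h2⟩ : ∃ x : F, (x : PadicAlgCl p) ∈ LogForms p L ∧
      Transcendental ℚ (x : PadicAlgCl p) ∧ (∀ g, v g = ((g x : F) : PadicAlgCl p)) ∧ Generic (Qb p) v := by
    rcases hv with h | ⟨α, hα0, halg, hLα, hvα, h1, h2⟩
    · exact h
    · obtain ⟨x, hx, hg⟩ := Pool.Agent.H512.CJ.log_lift (K := K) hL' hα0
      have ne := ne hα0
      have al := al halg
      refine ⟨x, ?_, ?_, fun g => by rw [hvα, hg], ?_, ?_⟩
      · rw [hx]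
        exact Submodule.subset_span (Or.inr ⟨_, ne 1, halg, rfl⟩)
      · rw [hx]
        exact Pool.Agent.H512.CJ.log_transc hL' (ne 1) halg hLα
      · intro h hh
        have h3 := h1 h hh
        rw [hvα, hvα] at h3 ⊢
        exact Pool.Agent.H512.CJ.indep_two hL' (ne 1) (ne h) (al 1) (al h) h3
      · intro h hh
        have h3 := h2 h hh
        rw [hvα, hvα, hvα] at h3 ⊢
        exact Pool.Agent.H512.CJ.indep_three hL' (ne 1) (ne h) (ne (h * h)) (al 1) (al h) (al (h * h)) h3
  have hv' : v = fun g => ((g x : F) : PadicAlgCl p) := funext hvx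
  subst hv'
  have h1' : ∀ g : F ≃ₐ[K] F, g ≠ 1 →
      LinearIndependent (Qb p) ![(x : PadicAlgCl p), ((g x : F) : PadicAlgCl p)] := fun g hg => h1 g hg
  have h2' : ∀ g : F ≃ₐ[K] F, g * g ≠ 1 → LinearIndependent (Qb p) ![(x : PadicAlgCl p),
      ((g x : F) : PadicAlgCl p), ((g (g x) : F) : PadicAlgCl p)] := fun g hg => h2 g hg
  refine ⟨?_, ?_, ?_⟩
  · intro hodd c hrow hcol
    have e0 : ∀ o, withOne (fun g : F ≃ₐ[K] F => ((g x : F) : PadicAlgCl p)) o = Pool.Agent.H512.CJ.entry x o := by
      rintro (_ | g)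
      · rfl
      · rfl
    have hrow' : LinearIndependent (Qb p) ![![κ 0 0 • Pool.Agent.H512.CJ.entry x (c 0 0),
        κ 0 1 • Pool.Agent.H512.CJ.entry x (c 0 1)], ![κ 1 0 • Pool.Agent.H512.CJ.entry x (c 1 0),
        κ 1 1 • Pool.Agent.H512.CJ.entry x (c 1 1)]] := by
      convert hrow using 1
      funext i j
      fin_cases i <;> fin_cases j <;> simp [e0]
    have hcol' : LinearIndependent (Qb p) ![![κ 0 0 • Pool.Agent.H512.CJ.entry x (c 0 0),
        κ 1 0 • Pool.Agent.H512.CJ.entry x (c 1 0)], ![κ 0 1 • Pool.Agent.H512.CJ.entry x (c 0 1),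
        κ 1 1 • Pool.Agent.H512.CJ.entry x (c 1 1)]] := by
      convert hcol using 1
      funext i j
      fin_cases i <;> fin_cases j <;> simp [e0]
    have h3 := Pool.Agent.H512.CJ.matrix_opt hV hσ hab hx hxt h1' h2' hodd (c 0 0) (c 0 1) (c 1 0) (c 1 1)
      (κ 0 0) (κ 0 1) (κ 1 0) (κ 1 1) hrow' hcol'
    rw [Matrix.det_fin_two, sub_ne_zero]
    simp only [Matrix.of_apply, e0]
    exact h3
  · intro g hodd hrow hcol
    have hrow' : LinearIndependent (Qb p)
        ![![κ 0 0 • ((g 0 0 x : F) : PadicAlgCl p), κ 0 1 • ((g 0 1 x : F) : PadicAlgCl p)],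
          ![κ 1 0 • ((g 1 0 x : F) : PadicAlgCl p), κ 1 1 • ((g 1 1 x : F) : PadicAlgCl p)]] := by
      convert hrow using 1
      funext i j
      fin_cases i <;> fin_cases j <;> rfl
    have hcol' : LinearIndependent (Qb p)
        ![![κ 0 0 • ((g 0 0 x : F) : PadicAlgCl p), κ 1 0 • ((g 1 0 x : F) : PadicAlgCl p)],
          ![κ 0 1 • ((g 0 1 x : F) : PadicAlgCl p), κ 1 1 • ((g 1 1 x : F) : PadicAlgCl p)]] := by
      convert hcol using 1
      funext i j
      fin_cases i <;> fin_cases j <;> rfl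
    have h3 := Pool.Agent.H512.CJ.matrix hV hσ hab hx h1' h2' (g 0 0) (g 0 1) (g 1 0) (g 1 1) (κ 0 0) (κ 0 1)
      (κ 1 0) (κ 1 1) hodd hrow' hcol'
    rw [Matrix.det_fin_two, sub_ne_zero]
    simp only [Matrix.of_apply]
    exact h3

  · intro h3' c hexc hrow hcol
    obtain ⟨h3, h1c⟩ := hthree h3' h1
    have e0 : ∀ o, withOne (fun g : F ≃ₐ[K] F => ((g x : F) : PadicAlgCl p)) o = Pool.Agent.H512.CJ.entry x o := by
      rintro (_ | g)
      · rfl
      · rfl
    have hrow' : LinearIndependent (Qb p) ![![κ 0 0 • Pool.Agent.H512.CJ.entry x (c 0 0),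
        κ 0 1 • Pool.Agent.H512.CJ.entry x (c 0 1)], ![κ 1 0 • Pool.Agent.H512.CJ.entry x (c 1 0),
        κ 1 1 • Pool.Agent.H512.CJ.entry x (c 1 1)]] := by
      convert hrow using 1
      funext i j
      fin_cases i <;> fin_cases j <;> simp [e0]
    have hcol' : LinearIndependent (Qb p) ![![κ 0 0 • Pool.Agent.H512.CJ.entry x (c 0 0),
        κ 1 0 • Pool.Agent.H512.CJ.entry x (c 1 0)], ![κ 0 1 • Pool.Agent.H512.CJ.entry x (c 0 1),
        κ 1 1 • Pool.Agent.H512.CJ.entry x (c 1 1)]] := by
      convert hcol using 1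
      funext i j
      fin_cases i <;> fin_cases j <;> simp [e0]
    have hex : ∀ a b : Option (F ≃ₐ[K] F), Pool.Agent.H512.CJ.Exc a b → Exceptional a b := by
      rintro (_ | a) (_ | b) h
      · exact h
      · exact h
      · exact h
      · exact h
    have h4 := Pool.Agent.H512.CJ.matrix_even hV hσ hone hab hx hxt h1' (fun g hg => h1c g hg)
      (fun g k hg hk hgk => h3 g k hg hk hgk) (c 0 0) (c 0 1) (c 1 0) (c 1 1)
      (fun h => hexc ⟨hex _ _ h.1, hex _ _ h.2⟩)
      (κ 0 0) (κ 0 1) (κ 1 0) (κ 1 1) hrow' hcol'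
    rw [Matrix.det_fin_two, sub_ne_zero]
    simp only [Matrix.of_apply, e0]
    exact h4

end Pool.Agent.Results.MP_dd0d16_nt.ConjugatesOfOneForm
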