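import Mathlib
import Pool.Agent.H594.PD.Emb
import Pool.Agent.H594.PD.Height

/-!
# The `p`-adic strong four exponentials conjecture near the values of rational functions at numbers
of bounded degree

Let `L` be the Iwasawa logarithm on the algebraic closure `Ω` of `ℚ_p` and let `ι` be an embedding
of an algebraic closure `ℚ̄` of `ℚ`. We fix a space `X` of finite dimension, over the algebraic
numbers, of ARBITRARY elements of `Ω` and rational functions `f_j = A_j / B_j` over `ℚ̄`. We show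
that for all but finitely many `z` in `ℚ̄` of degree at most `d` over a number field the strong four
exponentials conjecture holds for all matrices whose first row is in `X`, whose second row is in the
sum of `X` and of the space of ALL linear forms with algebraic coefficients in `1` and in logarithms
of algebraic numbers, and one entry `v + ∑ β_j L(δ_j f_j(z))`, `v` in `X`, algebraic `β_j`, not all
`0`, in the second row, and this for ALL algebraic numbers `δ_j ≠ 0` (of any degree) of height at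
most `κ h(z)`. If the `f_j` have only simple zeros and poles, no two of them have a common zero
or pole, and each `f_j` has at least `N` zeros and poles in `ℚ̄`, then every `κ < (N - 2 d) / 2` is
admissible; for a single function of degree `M` with zeros and poles on the projective line of
multiplicity at most `m` and `m'` every `κ < M - 2 d m m' / (m + m')`. The constants are larger for
algebraic integers `z`; for `f = n (n + 1) ⋯ (n + k - 1)` at the positive integers `n` one gets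
`κ < k - 1`, and this constant is the best possible one.

By the `p`-adic analogue of the theorem of Waldschmidt and Roy on points of hyperplanes with
coordinates in the space of linear forms in logarithms (starting files `Pool.Agent.W254.PA`) the
exceptional `δ_j f_j(z)` are multiplicatively dependent modulo a group of finite rank which depends
only on `X`. The places at which its elements are not units are treated with Wirsing's theorem (a
theorem of the library).
-/

set_option autoImplicit false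

namespace Pool.Agent.Results.MP_dd0d16_nt.NearValuesOfFunctions

open Pool.Agent.H594.ML (qbar_alg)
open Pool.Agent.H594.WI (DegQ)
open Pool.Agent.H594.PD (free_padic q_multi q_one q_poly hull_of_zpow)
open Pool.Agent.Helper259.AbsHt (Qbar)
open Pool.Agent.Y215.SK (DivHull h1)

/-- the field of the algebraic numbers in the algebraic closure of `ℚ_p` -/
noncomputable abbrev Alg (p : ℕ) [Fact p.Prime] : IntermediateField ℚ (PadicAlgCl p) :=
  algebraicClosure ℚ (PadicAlgCl p)

/-- `L` is the Iwasawa logarithm. -/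
structure IsIwasawaLog (p : ℕ) [Fact p.Prime] (L : PadicAlgCl p → PadicAlgCl p) : Prop where
  mul : ∀ x y : PadicAlgCl p, x ≠ 0 → y ≠ 0 → L (x * y) = L x + L y
  prime : L (p : PadicAlgCl p) = 0
  ser : ∀ z : PadicAlgCl p, ‖z‖ < 1 →
    HasSum (fun n : ℕ => (-1 : PadicAlgCl p) ^ n * z ^ (n + 1) / ((n : PadicAlgCl p) + 1))
      (L (1 + z))

/-- The absolute logarithmic height of an element of the algebraic closure of `ℚ`. (See part (0) of
the theorem.) -/
noncomputable def ht (z : AlgebraicClosure ℚ) : ℝ := h1 z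

section defs

variable {p : ℕ} [Fact p.Prime] (L : PadicAlgCl p → PadicAlgCl p)

/-- The linear combinations, with algebraic coefficients, of `1` and of logarithms of nonzero
algebraic numbers. -/
noncomputable def LogForms : Submodule (Alg p) (PadicAlgCl p) :=
  Submodule.span (Alg p) ({1} ∪ {z | ∃ α : PadicAlgCl p, α ≠ 0 ∧ IsAlgebraic ℚ α ∧ z = L α})

/-- The numbers `v + β_1 L(c_1) + ⋯ + β_k L(c_k)` with `v` in `X` and algebraic numbers `β_j`, not
all `0`. -/
def Shift {k : ℕ} (X : Submodule (Alg p) (PadicAlgCl p)) (c : Fin k → PadicAlgCl p) :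
    Set (PadicAlgCl p) :=
  {r | ∃ v ∈ X, ∃ β : Fin k → PadicAlgCl p, (∀ j, IsAlgebraic ℚ (β j)) ∧ β ≠ 0 ∧
    r = v + ∑ j, β j * L (c j)}

/-- The conclusion of the strong four exponentials conjecture for all matrices whose first row is in
`X`, with one entry of the second row in `Shift L X c` and the other one in the sum of `X` and
`LogForms L`: if the rows and the columns are linearly independent over the algebraic numbers, then
the determinant is not `0`. -/
def Strong {k : ℕ} (X : Submodule (Alg p) (PadicAlgCl p)) (c : Fin k → PadicAlgCl p) : Prop :=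
  ∀ M : Matrix (Fin 2) (Fin 2) (PadicAlgCl p), M 0 0 ∈ X → M 0 1 ∈ X → M 1 0 ∈ Shift L X c →
    M 1 1 ∈ X ⊔ LogForms L → LinearIndependent (Alg p) (fun i => M i) →
    LinearIndependent (Alg p) (fun j i => M i j) → M.det ≠ 0

end defs

/-- the elements of degree at most `d` over `K` -/
def DegLe (K : IntermediateField ℚ (AlgebraicClosure ℚ)) (d : ℕ) : Set (AlgebraicClosure ℚ) :=
  {z | ∃ P : Polynomial (AlgebraicClosure ℚ), P ≠ 0 ∧ P.natDegree ≤ d ∧ (∀ i, P.coeff i ∈ K) ∧
    P.eval z = 0}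

/-- All zeros of `A / B` (`A`, `B` without common zeros) on the projective line have multiplicity at
most `m`. (The order of the zero at infinity is the difference of the degrees.) -/
def ZerosLe (A B : Polynomial (AlgebraicClosure ℚ)) (m : ℕ) : Prop :=
  (∀ a, A.rootMultiplicity a ≤ m) ∧ B.natDegree - A.natDegree ≤ m

/-- The zeros of the `A_j` and `B_j` are simple and different from each other. -/
def Separate {k : ℕ} (A B : Fin k → Polynomial (AlgebraicClosure ℚ)) : Prop :=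
  ∀ a, ∑ j, ((A j).rootMultiplicity a + (B j).rootMultiplicity a) ≤ 1

/-- the height in terms of Mathlib's height of the elements of number fields -/
theorem ht_field (F : Type) [Field F] [NumberField F] (φ : F →+* AlgebraicClosure ℚ) (y : F) :
    ht (φ y) = Height.logHeight₁ y / Module.finrank ℚ F :=
  Pool.Agent.Y215.SK.h1_eq F φ y

theorem ht_rat (q : ℚ) : ht (q : AlgebraicClosure ℚ) = Height.logHeight₁ q := by
  have h := ht_field ℚ (algebraMap ℚ (AlgebraicClosure ℚ)) q
  rw [Module.finrank_self, Nat.cast_one, div_one] at h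
  exact h

theorem ht_nat {n : ℕ} (hn : n ≠ 0) : ht (n : AlgebraicClosure ℚ) = Real.log n := by
  have h := ht_rat n
  have : NeZero n := ⟨hn⟩
  rw [Rat.logHeight₁_natCast n] at h
  exact_mod_cast h

section strong

variable {p : ℕ} [hp : Fact p.Prime] {L : PadicAlgCl p → PadicAlgCl p}

theorem lib_log (hL : IsIwasawaLog p L) : Pool.Agent.W245.PB.IsIwasawaLog p L where
  mul := hL.mul
  prime := hL.prime
  ser := hL.ser

/-- sufficiently general numbers satisfy the strong form -/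
theorem strong_of (hL : IsIwasawaLog p L) (em : AlgebraicClosure ℚ →+* PadicAlgCl p)
    (X : Submodule (Alg p) (PadicAlgCl p)) (hX : X.FG) :
    ∃ Γ : Subgroup Qbarˣ, Γ.FG ∧ ∀ (k : ℕ) (c : Fin k → Qbarˣ),
      ¬ Strong L X (fun j => em (c j)) → ∃ m : Fin k → ℤ, m ≠ 0 ∧ ∏ j, c j ^ m j ∈ DivHull Γ := by
  have hL' := lib_log hL
  obtain ⟨Γ, hΓ, hmain⟩ := free_padic hL' em (X ⊔ X * X) (Submodule.FG.sup hX (hX.mul hX))
  refine ⟨Γ, hΓ, fun k c hno => ?_⟩
  by_contra hind
  push Not at hind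
  apply hno
  rintro M hp hq ⟨v, hv, β, hβ, hβ0, hr⟩ hs hrows hcols hdet
  obtain ⟨w, hw, t, ht, hs⟩ := Submodule.mem_sup.1 hs
  obtain ⟨j, hj⟩ : ∃ j, β j ≠ 0 := by
    by_contra h
    push Not at h
    exact hβ0 (funext h)
  rw [Matrix.det_fin_two] at hdet
  have he : M 0 0 * M 1 1 = M 0 1 * M 1 0 := by linear_combination hdet
  -- the entries of the first row are linearly independent
  have hpq : LinearIndependent (Alg p) ![M 0 0, M 0 1] := by
    rw [LinearIndependent.pair_iff]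
    intro a b hab
    rw [Algebra.smul_def, Algebra.smul_def] at hab
    have hab' : (a : PadicAlgCl p) * M 0 0 + (b : PadicAlgCl p) * M 0 1 = 0 := hab
    have h0 : M 0 0 ≠ 0 ∨ M 0 1 ≠ 0 := by
      by_contra h
      push Not at h
      apply hrows.ne_zero 0
      funext i
      fin_cases i
      · exact h.1
      · exact h.2
    have h1 : (a : PadicAlgCl p) * M 1 0 + (b : PadicAlgCl p) * M 1 1 = 0 := by
      rcases h0 with h0 | h0
      · refine (mul_eq_zero.1 (?_ : M 0 0 * _ = 0)).resolve_left h0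
        linear_combination M 1 0 * hab' + (b : PadicAlgCl p) * he
      · refine (mul_eq_zero.1 (?_ : M 0 1 * _ = 0)).resolve_left h0
        linear_combination M 1 1 * hab' - (a : PadicAlgCl p) * he
    rw [Fintype.linearIndependent_iff] at hcols
    have h2 := hcols ![a, b] (by
      rw [Fin.sum_univ_two]
      funext i
      show a • M i 0 + b • M i 1 = 0
      rw [Algebra.smul_def, Algebra.smul_def]
      fin_cases i
      · exact hab'
      · exact h1)
    exact ⟨h2 0, h2 1⟩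
  have hY : Submodule.span (Alg p) {M 0 0} ≤ X ⊔ X * X := by
    rw [Submodule.span_singleton_le_iff_mem]
    exact Submodule.mem_sup_left hp
  have h1 := hmain k c (fun m hm hu => hind m hm hu) _ hY
    (M 0 1 * v - M 0 0 * w) (Submodule.mem_sup_right (Submodule.sub_mem _
      (Submodule.mul_mem_mul hq hv) (Submodule.mul_mem_mul hp hw))) (fun j => β j * M 0 1)
    (fun j => Submodule.mem_sup_left (by
        have h2 := X.smul_mem (⟨β j, mem_algebraicClosure_iff.2 (hβ j)⟩ : Alg p) hq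
        rw [Algebra.smul_def] at h2
        exact h2)) (by
      have h3 := Submodule.mul_mem_mul (Submodule.mem_span_singleton_self
        (R := Alg p) (M 0 0)) ht
      have h4 : M 0 1 * v - M 0 0 * w + ∑ j, β j * M 0 1 * L (em (c j)) = M 0 0 * t := by
        have h5 : ∑ j, β j * M 0 1 * L (em (c j)) = M 0 1 * ∑ j, β j * L (em (c j)) := by
          rw [Finset.mul_sum]
          exact Finset.sum_congr rfl fun j _ => by ring
        rw [h5]
        rw [hr, ← hs] at he
        linear_combination -he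
      rw [h4]
      exact h3) j
  obtain ⟨γ, hγ⟩ := Submodule.mem_span_singleton.1 h1
  rw [LinearIndependent.pair_iff] at hpq
  have h2 := hpq (-γ) (⟨β j, mem_algebraicClosure_iff.2 (hβ j)⟩ : Alg p) (by
    rw [neg_smul, hγ, Algebra.smul_def]
    show -(β j * M 0 1) + β j * M 0 1 = 0
    ring)
  exact hj (congrArg Subtype.val h2.2)

/-- a unit from a nonzero element -/
theorem exists_unit {x : Qbar} (hx : x ≠ 0) : ∃ u : Qbarˣ, x = (u : Qbar) := ⟨Units.mk0 x hx, rfl⟩

/-- a single exceptional number is in a group of finite rank -/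
theorem one_hull (hL : IsIwasawaLog p L) (em : AlgebraicClosure ℚ →+* PadicAlgCl p)
    (X : Submodule (Alg p) (PadicAlgCl p)) (hX : X.FG) :
    ∃ Γ : Subgroup Qbarˣ, Γ.FG ∧ ∀ α : AlgebraicClosure ℚ, α ≠ 0 →
      ¬ Strong L X (fun _ : Fin 1 => em α) → ∃ u ∈ DivHull Γ, α = ((u : Qbarˣ) : Qbar) := by
  obtain ⟨Γ, hΓ, hexc⟩ := strong_of hL em X hX
  refine ⟨Γ, hΓ, fun α hα0 hno => ?_⟩
  obtain ⟨u, rfl⟩ := exists_unit hα0
  obtain ⟨m, hm, hv⟩ := hexc 1 (fun _ => u) hno
  have hm0 : m 0 ≠ 0 := by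
    intro h0
    apply hm
    funext i
    rw [Subsingleton.elim i 0, h0]
    rfl
  rw [Fin.prod_univ_one] at hv
  exact ⟨u, hull_of_zpow hm0 hv, rfl⟩

end strong

section near

variable {p : ℕ} [hp : Fact p.Prime] {L : PadicAlgCl p → PadicAlgCl p}

/-- from height inequalities to finiteness -/
theorem finite_of (K : IntermediateField ℚ (AlgebraicClosure ℚ)) [FiniteDimensional ℚ K] (d : ℕ)
    (κ : ℝ) (c : ℝ) (h : κ < c) (S : Set (AlgebraicClosure ℚ)) (hS : ∀ ε : ℝ, 0 < ε → ∃ C : ℝ,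
      ∀ z ∈ S, z ∈ DegLe K d ∧ ∃ x : ℝ, (c - ε) * ht z - C ≤ x ∧ x ≤ κ * ht z) : S.Finite := by
  obtain ⟨C, hC⟩ := hS ((c - κ) / 2) (by linarith)
  exact Pool.Agent.H594.PD.finite_of K d (c - (c - κ) / 2) κ C (by linarith) S hC

/-- several functions -/
theorem near_multi (hL : IsIwasawaLog p L) (em : AlgebraicClosure ℚ →+* PadicAlgCl p)
    (X : Submodule (Alg p) (PadicAlgCl p)) (hX : X.FG)
    (K : IntermediateField ℚ (AlgebraicClosure ℚ)) [FiniteDimensional ℚ K] (d : ℕ) (hd : 1 ≤ d)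
    {k : ℕ} (A B : Fin k → Polynomial (AlgebraicClosure ℚ)) (hA : ∀ j, A j ≠ 0)
    (hB : ∀ j, B j ≠ 0) (hAB : Separate A B) (N : ℕ)
    (hN : ∀ j, N ≤ (A j).natDegree + (B j).natDegree) (κ : ℝ) :
    {z | z ∈ DegLe K d ∧ (κ < ((N : ℝ) - 2 * d) / 2 ∨
        (IsIntegral ℤ z ∧ κ < ((N : ℝ) - (2 * d - 1)) / 2)) ∧
      (∀ j, (A j).eval z ≠ 0 ∧ (B j).eval z ≠ 0) ∧ ∃ δ : Fin k → AlgebraicClosure ℚ,
      (∀ j, δ j ≠ 0 ∧ ht (δ j) ≤ κ * ht z) ∧
      ¬ Strong L X (fun j => em (δ j * ((A j).eval z / (B j).eval z)))}.Finite := by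
  obtain ⟨Γ, hΓ, hexc⟩ := strong_of hL em X hX
  have key : ∀ ε : ℝ, 0 < ε → ∃ C : ℝ, ∀ z ∈ DegLe K d,
      (∀ j, (A j).eval z ≠ 0 ∧ (B j).eval z ≠ 0) → ∀ δ : Fin k → AlgebraicClosure ℚ,
      (∀ j, δ j ≠ 0) → ∀ H : ℝ, (∀ j, ht (δ j) ≤ H) →
      ¬ Strong L X (fun j => em (δ j * ((A j).eval z / (B j).eval z))) →
      (((N : ℝ) - 2 * d) / 2 - ε) * ht z - C ≤ H ∧
      (IsIntegral ℤ z → (((N : ℝ) - (2 * d - 1)) / 2 - ε) * ht z - C ≤ H) := by
    intro ε hε
    obtain ⟨C, -, hC⟩ := q_multi Γ hΓ K d hd A B hA hB hAB N hN ε hε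
    refine ⟨C, fun z hz hne δ hδ H hH hno => ?_⟩
    choose c hc using fun j => exists_unit
      (mul_ne_zero (hδ j) (div_ne_zero (hne j).1 (hne j).2))
    have hno' : ¬ Strong L X (fun j => em (c j)) := by
      simpa only [← hc] using hno
    obtain ⟨m, hm, hu⟩ := hexc k c hno'
    refine hC z hz (fun j => (hne j).1) (fun j => (hne j).2) m hm _ hu δ H hH ?_
    rw [Units.coe_prod]
    refine Finset.prod_congr rfl fun j _ => ?_
    rw [Units.val_zpow_eq_zpow_val, hc]
  have main : ∀ (P : AlgebraicClosure ℚ → Prop) (T : ℝ), κ < ((N : ℝ) - T) / 2 →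
      (∀ ε : ℝ, 0 < ε → ∃ C : ℝ, ∀ z ∈ DegLe K d,
      (∀ j, (A j).eval z ≠ 0 ∧ (B j).eval z ≠ 0) → ∀ δ : Fin k → AlgebraicClosure ℚ,
      (∀ j, δ j ≠ 0) → ∀ H : ℝ, (∀ j, ht (δ j) ≤ H) →
      ¬ Strong L X (fun j => em (δ j * ((A j).eval z / (B j).eval z))) → P z →
      (((N : ℝ) - T) / 2 - ε) * ht z - C ≤ H) →
      {z | z ∈ DegLe K d ∧ P z ∧
      (∀ j, (A j).eval z ≠ 0 ∧ (B j).eval z ≠ 0) ∧ ∃ δ : Fin k → AlgebraicClosure ℚ,
      (∀ j, δ j ≠ 0 ∧ ht (δ j) ≤ κ * ht z) ∧
      ¬ Strong L X (fun j => em (δ j * ((A j).eval z / (B j).eval z)))}.Finite := by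
    intro P T hT h
    refine finite_of K d κ (((N : ℝ) - T) / 2) hT _ fun ε hε => ?_
    obtain ⟨C, hC⟩ := h ε hε
    refine ⟨C, ?_⟩
    rintro z ⟨hz, hP, hne, δ, hδ, hno⟩
    exact ⟨hz, κ * ht z, hC z hz hne δ (fun j => (hδ j).1) _ (fun j => (hδ j).2) hno hP, le_rfl⟩
  by_cases h1 : κ < ((N : ℝ) - 2 * d) / 2
  · refine (main (fun _ => True) (2 * d) h1 (fun ε hε => ?_)).subset
      fun z ⟨hz, _, h⟩ => ⟨hz, trivial, h⟩
    obtain ⟨C, hC⟩ := key ε hε
    exact ⟨C, fun z hz hne δ hδ H hH hno _ => (hC z hz hne δ hδ H hH hno).1⟩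
  · by_cases h2 : κ < ((N : ℝ) - (2 * d - 1)) / 2
    · refine (main (fun z => IsIntegral ℤ z) (2 * d - 1) h2 (fun ε hε => ?_)).subset ?_
      · obtain ⟨C, hC⟩ := key ε hε
        exact ⟨C, fun z hz hne δ hδ H hH hno hi => (hC z hz hne δ hδ H hH hno).2 hi⟩
      · rintro z ⟨hz, h3, h⟩
        exact ⟨hz, (h3.resolve_left h1).1, h⟩
    · refine Set.Finite.subset Set.finite_empty ?_
      rintro z ⟨hz, h3, h⟩
      rcases h3 with h3 | h3
      · exact absurd h3 h1
      · exact absurd h3.2 h2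

/-- one function -/
theorem near_one (hL : IsIwasawaLog p L) (em : AlgebraicClosure ℚ →+* PadicAlgCl p)
    (X : Submodule (Alg p) (PadicAlgCl p)) (hX : X.FG)
    (K : IntermediateField ℚ (AlgebraicClosure ℚ)) [FiniteDimensional ℚ K] (d : ℕ) (hd : 1 ≤ d)
    (A B : Polynomial (AlgebraicClosure ℚ)) (hA : A ≠ 0) (hB : B ≠ 0) (hAB : IsCoprime A B)
    (m m' : ℕ) (hm0 : 1 ≤ m) (hm0' : 1 ≤ m') (hm : ZerosLe A B m) (hm' : ZerosLe B A m') (κ : ℝ)
    (hκ : κ < max (A.natDegree : ℝ) B.natDegree - 2 * d * (m * m' / (m + m'))) :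
    {z | z ∈ DegLe K d ∧ A.eval z ≠ 0 ∧ B.eval z ≠ 0 ∧ ∃ δ : AlgebraicClosure ℚ, δ ≠ 0 ∧
      ht δ ≤ κ * ht z ∧ ¬ Strong L X (fun _ : Fin 1 => em (δ * (A.eval z / B.eval z)))}.Finite := by
  obtain ⟨Γ, hΓ, hexc⟩ := one_hull hL em X hX
  refine finite_of K d κ _ hκ _ fun ε hε => ?_
  obtain ⟨C, -, hC⟩ := q_one Γ hΓ K d hd A B hA hB hAB m m' hm0 hm0' hm.1 hm.2 hm'.1 hm'.2 ε hε
  refine ⟨C, ?_⟩
  rintro z ⟨hz, hAz, hBz, δ, hδ0, hle, hno⟩
  obtain ⟨u, hu, he⟩ := hexc _ (mul_ne_zero hδ0 (div_ne_zero hAz hBz)) hno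
  exact ⟨hz, ht δ, hC z hz hAz hBz u hu δ he, hle⟩

/-- one polynomial, algebraic integers -/
theorem near_int (hL : IsIwasawaLog p L) (em : AlgebraicClosure ℚ →+* PadicAlgCl p)
    (X : Submodule (Alg p) (PadicAlgCl p)) (hX : X.FG)
    (K : IntermediateField ℚ (AlgebraicClosure ℚ)) [FiniteDimensional ℚ K] (d : ℕ) (hd : 1 ≤ d)
    (A : Polynomial (AlgebraicClosure ℚ)) (hA : A ≠ 0) (m : ℕ) (hm0 : 1 ≤ m)
    (hm : ∀ a, A.rootMultiplicity a ≤ m) (κ : ℝ) (hκ : κ < A.natDegree - (2 * d - 1) * m) :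
    {z | z ∈ DegLe K d ∧ IsIntegral ℤ z ∧ A.eval z ≠ 0 ∧ ∃ δ : AlgebraicClosure ℚ, δ ≠ 0 ∧
      ht δ ≤ κ * ht z ∧ ¬ Strong L X (fun _ : Fin 1 => em (δ * A.eval z))}.Finite := by
  obtain ⟨Γ, hΓ, hexc⟩ := one_hull hL em X hX
  refine finite_of K d κ _ hκ _ fun ε hε => ?_
  obtain ⟨C, -, hC⟩ := q_poly Γ hΓ K d hd A hA m hm0 hm ε hε
  refine ⟨C, ?_⟩
  rintro z ⟨hz, hzi, hAz, δ, hδ0, hle, hno⟩
  obtain ⟨u, hu, he⟩ := hexc _ (mul_ne_zero hδ0 hAz) hno
  exact ⟨hz, ht δ, hC z hz hzi hAz u hu δ he, hle⟩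

end near

/-- the polynomial `X (X + 1) ⋯ (X + k - 1)` -/
noncomputable def rising (k : ℕ) : Polynomial (AlgebraicClosure ℚ) :=
  ∏ i ∈ Finset.range k, (Polynomial.X - Polynomial.C (-(i : AlgebraicClosure ℚ)))

theorem rising_deg (k : ℕ) : (rising k).natDegree = k := by
  unfold rising
  rw [Polynomial.natDegree_prod_of_monic _ _ fun _ _ => Polynomial.monic_X_sub_C _]
  simp only [Polynomial.natDegree_X_sub_C, Finset.sum_const, Finset.card_range, smul_eq_mul,
    mul_one]

theorem rising_ne (k : ℕ) : rising k ≠ 0 :=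
  (Polynomial.monic_prod_of_monic _ _ fun i _ => Polynomial.monic_X_sub_C _).ne_zero

theorem rising_mult (k : ℕ) (a : AlgebraicClosure ℚ) : (rising k).rootMultiplicity a ≤ 1 := by
  classical
  rw [← Polynomial.count_roots]
  have h1 : (rising k).roots = (Finset.range k).val.map (fun i : ℕ => -(i : AlgebraicClosure ℚ)) := by
    unfold rising
    exact Polynomial.roots_multiset_prod_X_sub_C
      ((Finset.range k).val.map (fun i : ℕ => -(i : AlgebraicClosure ℚ))) ▸ by
        rw [Multiset.map_map]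
        rfl
  rw [h1]
  refine Multiset.nodup_iff_count_le_one.1 ?_ a
  refine (Finset.range k).nodup.map ?_
  intro i j hij
  exact Nat.cast_injective (neg_injective hij)

theorem rising_eval (k : ℕ) (x : AlgebraicClosure ℚ) :
    (rising k).eval x = ∏ i ∈ Finset.range k, (x + i) := by
  unfold rising
  rw [Polynomial.eval_prod]
  refine Finset.prod_congr rfl fun i _ => ?_
  simp

theorem nat_deg (n : ℕ) : (n : AlgebraicClosure ℚ) ∈ DegLe ⊥ 1 := by
  refine ⟨Polynomial.X - Polynomial.C (n : AlgebraicClosure ℚ), Polynomial.X_sub_C_ne_zero _, ?_,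
    fun i => ?_, ?_⟩
  · rw [Polynomial.natDegree_X_sub_C]
  · rw [Polynomial.coeff_sub, Polynomial.coeff_X, Polynomial.coeff_C]
    refine IntermediateField.sub_mem _ ?_ ?_
    · split_ifs
      · exact IntermediateField.one_mem _
      · exact IntermediateField.zero_mem _
    · split_ifs
      · exact natCast_mem _ n
      · exact IntermediateField.zero_mem _
  · simp

/-- products of consecutive integers -/
theorem consecutive {p : ℕ} [Fact p.Prime] {L : PadicAlgCl p → PadicAlgCl p}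
    (hL : IsIwasawaLog p L) (em : AlgebraicClosure ℚ →+* PadicAlgCl p)
    (X : Submodule (Alg p) (PadicAlgCl p)) (hX : X.FG) (k : ℕ) (κ : ℝ) (hκ : κ < k - 1) :
    {n : ℕ | ∃ δ : AlgebraicClosure ℚ, δ ≠ 0 ∧ ht δ ≤ κ * Real.log n ∧
      ¬ Strong L X (fun _ : Fin 1 => em (δ * ∏ i ∈ Finset.range k,
        ((n : AlgebraicClosure ℚ) + i)))}.Finite := by
  have hfin := near_int hL em X hX ⊥ 1 le_rfl (rising k) (rising_ne k) 1 le_rfl (rising_mult k) κ
    (by
      rw [rising_deg]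
      push_cast
      linarith)
  have hfin2 := hfin.preimage (f := fun n : ℕ => (n : AlgebraicClosure ℚ))
    (fun a _ b _ h => Nat.cast_injective h)
  refine (hfin2.union (Set.finite_singleton 0)).subset ?_
  rintro n ⟨δ, hδ0, hle, hno⟩
  by_cases hn : n = 0
  · exact Or.inr hn
  · refine Or.inl ⟨nat_deg n, isIntegral_natCast n, ?_, δ, hδ0, ?_, ?_⟩
    · rw [rising_eval]
      refine Finset.prod_ne_zero_iff.2 fun i _ => ?_
      have h5 : n + i ≠ 0 := by omega
      have h6 : ((n + i : ℕ) : AlgebraicClosure ℚ) ≠ 0 := Nat.cast_ne_zero.2 h5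
      rw [Nat.cast_add] at h6
      exact h6
    · rw [ht_nat hn]
      exact hle
    · rw [rising_eval]
      exact hno

/-- the powers of `p` are exceptional for the space spanned by `1`, `t` and `t ^ 2` -/
theorem p_exc {p : ℕ} [hp : Fact p.Prime] {L : PadicAlgCl p → PadicAlgCl p}
    (hL : IsIwasawaLog p L) {t : PadicAlgCl p} (ht : Transcendental ℚ t) (j : ℕ) :
    ¬ Strong L (Submodule.span (Alg p) {1, t, t ^ 2}) (fun _ : Fin 1 => (p : PadicAlgCl p) ^ j) := by
  have hL' := lib_log hL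
  have hpne : (p : PadicAlgCl p) ≠ 0 := Nat.cast_ne_zero.2 hp.out.ne_zero
  have h1X : (1 : PadicAlgCl p) ∈ Submodule.span (Alg p) {1, t, t ^ 2} :=
    Submodule.subset_span (by simp)
  have h2X : t ∈ Submodule.span (Alg p) {1, t, t ^ 2} := Submodule.subset_span (by simp)
  have h3X : t ^ 2 ∈ Submodule.span (Alg p) {1, t, t ^ 2} := Submodule.subset_span (by simp)
  have hli : ∀ a b : Alg p, a • (1 : PadicAlgCl p) + b • t = 0 → a = 0 ∧ b = 0 := by
    intro a b hab
    rw [Algebra.smul_def, Algebra.smul_def, mul_one] at hab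
    have hab' : (a : PadicAlgCl p) + (b : PadicAlgCl p) * t = 0 := hab
    have hb : b = 0 := by
      by_contra hb
      apply ht
      have hb' : (b : PadicAlgCl p) ≠ 0 := fun h0 => hb (Subtype.ext h0)
      have h2 : t = -(a : PadicAlgCl p) * (b : PadicAlgCl p)⁻¹ := by
        field_simp
        linear_combination hab'
      rw [h2]
      exact (mem_algebraicClosure_iff.1 a.2).neg.mul (mem_algebraicClosure_iff.1 b.2).inv
    refine ⟨?_, hb⟩
    rw [hb] at hab'
    have h4 : ((0 : Alg p) : PadicAlgCl p) = 0 := rfl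
    rw [h4, zero_mul, add_zero] at hab'
    exact Subtype.ext hab'
  intro h
  have h4X : !![1, t; t, t ^ 2] 1 1 ∈ Submodule.span (Alg p) {1, t, t ^ 2} := h3X
  refine h !![1, t; t, t ^ 2] h1X h2X ⟨t, h2X, fun _ => 1, fun _ => isAlgebraic_one, ?_, ?_⟩
    (Submodule.mem_sup_left h4X) ?_ ?_ ?_
  · intro h0
    exact one_ne_zero (congrFun h0 0)
  · rw [Fin.sum_univ_one, hL'.pow hpne, hL.prime]
    simp
  · rw [Fintype.linearIndependent_iff]
    intro g hg
    have h0 := congrFun hg 0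
    rw [Finset.sum_apply, Fin.sum_univ_two] at h0
    have h1 := hli (g 0) (g 1) (by simpa using h0)
    intro i
    fin_cases i
    · exact h1.1
    · exact h1.2
  · rw [Fintype.linearIndependent_iff]
    intro g hg
    have h0 := congrFun hg 0
    rw [Finset.sum_apply, Fin.sum_univ_two] at h0
    have h1 := hli (g 0) (g 1) (by simpa using h0)
    intro i
    fin_cases i
    · exact h1.1
    · exact h1.2
  · rw [Matrix.det_fin_two]
    simp
    ring

/-- the constant `k - 1` is the best possible one -/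
theorem sharp {p : ℕ} [hp : Fact p.Prime] {L : PadicAlgCl p → PadicAlgCl p}
    (hL : IsIwasawaLog p L) (em : AlgebraicClosure ℚ →+* PadicAlgCl p)
    {t : PadicAlgCl p} (htr : Transcendental ℚ t) (k : ℕ) (hk : 1 ≤ k) (κ : ℝ)
    (hκ : (k : ℝ) - 1 < κ) :
    {n : ℕ | ∃ δ : AlgebraicClosure ℚ, δ ≠ 0 ∧ ht δ ≤ κ * Real.log n ∧
      ¬ Strong L (Submodule.span (Alg p) {1, t, t ^ 2}) (fun _ : Fin 1 =>
        em (δ * ∏ i ∈ Finset.range k, ((n : AlgebraicClosure ℚ) + i)))}.Infinite := by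
  obtain ⟨k, rfl⟩ : ∃ k', k = k' + 1 := ⟨k - 1, by omega⟩
  push_cast at hκ
  have hκ' : 0 < κ - k := by linarith
  have hp1 : 1 < p := hp.out.one_lt
  have hlp : 0 < Real.log p := Real.log_pos (by exact_mod_cast hp1)
  have hl2 : Real.log 2 ≤ Real.log p :=
    Real.log_le_log two_pos (by exact_mod_cast hp.out.two_le)
  obtain ⟨J, hJ⟩ := exists_nat_gt (k / (κ - k))
  have hinf : (Set.Ici (J + k + 1)).Infinite := Set.Ici_infinite _
  refine (hinf.image (f := fun j : ℕ => p ^ j) (fun a _ b _ h =>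
    Nat.pow_right_injective hp.out.two_le h)).mono ?_
  rintro _ ⟨j, hj, rfl⟩
  have hj' : J + k + 1 ≤ j := hj
  have hjk : k ≤ p ^ j := by
    have : j < p ^ j := Nat.lt_pow_self hp1
    omega
  set n : ℕ := p ^ j with hn
  have hn0 : 0 < n := Nat.pow_pos hp.out.pos
  have hlogn : Real.log n = j * Real.log p := by
    rw [hn]
    push_cast
    rw [Real.log_pow]
  let Q : ℕ := ∏ i ∈ Finset.range k, (n + (i + 1))
  have hQ0 : 0 < Q := Finset.prod_pos fun i _ => by omega
  have hQle : Q ≤ (2 * n) ^ k := by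
    have h1 : Q ≤ ∏ i ∈ Finset.range k, (2 * n) := by
      refine Finset.prod_le_prod' fun i hi => ?_
      rw [Finset.mem_range] at hi
      omega
    rwa [Finset.prod_const, Finset.card_range] at h1
  have hprod : ∏ i ∈ Finset.range (k + 1), ((n : AlgebraicClosure ℚ) + i) = (Q : AlgebraicClosure ℚ) * n := by
    have hQc : (Q : AlgebraicClosure ℚ) = ∏ i ∈ Finset.range k,
        ((n : AlgebraicClosure ℚ) + ((i : AlgebraicClosure ℚ) + 1)) := by
      simp only [Q]
      push_cast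
      rfl
    rw [Finset.prod_range_succ', hQc]
    push_cast
    rw [add_zero]
  have hQc : (Q : AlgebraicClosure ℚ) ≠ 0 := by exact_mod_cast hQ0.ne'
  refine ⟨((Q : ℚ)⁻¹ : ℚ), ?_, ?_, ?_⟩
  · push_cast
    exact inv_ne_zero hQc
  · have h1 : ht (((Q : ℚ)⁻¹ : ℚ) : AlgebraicClosure ℚ) = Real.log Q := by
      rw [ht_rat, Height.logHeight₁_inv]
      have : NeZero Q := ⟨hQ0.ne'⟩
      exact Rat.logHeight₁_natCast Q
    rw [h1, hlogn]
    have h2 : Real.log Q ≤ k * (Real.log 2 + j * Real.log p) := by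
      have h3 : (Q : ℝ) ≤ (2 * n) ^ k := by exact_mod_cast hQle
      refine (Real.log_le_log (by exact_mod_cast hQ0) h3).trans ?_
      rw [Real.log_pow, Real.log_mul two_ne_zero (by exact_mod_cast hn0.ne'), hlogn]
    refine h2.trans ?_
    have h4 : (k : ℝ) ≤ (κ - k) * j := by
      have h5 : (J : ℝ) ≤ j := by exact_mod_cast (by omega : J ≤ j)
      rw [div_lt_iff₀ hκ'] at hJ
      nlinarith
    have h6 : (k : ℝ) * Real.log 2 ≤ k * Real.log p :=
      mul_le_mul_of_nonneg_left hl2 (Nat.cast_nonneg k)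
    nlinarith
  · rw [hprod]
    have h1 : (((Q : ℚ)⁻¹ : ℚ) : AlgebraicClosure ℚ) * ((Q : AlgebraicClosure ℚ) * (n : AlgebraicClosure ℚ)) =
        (p : AlgebraicClosure ℚ) ^ j := by
      push_cast
      rw [← mul_assoc, inv_mul_cancel₀ hQc, one_mul, hn]
      push_cast
      rfl
    rw [h1, map_pow, map_natCast]
    exact p_exc hL htr j

/-- **Main result.** Let `L` be the Iwasawa logarithm on the algebraic closure of `ℚ_p` and `em` an
embedding of the algebraic closure of `ℚ`. (0) `ht` is the absolute logarithmic height. (1) The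
strong four exponentials conjecture near several functions with simple zeros and poles, (2) near one
function, (3) near one polynomial at algebraic integers. (4), (5) Products of consecutive integers:
the constant in (3) is the best possible one. -/
theorem result :
    -- (0)
    (∀ (F : Type) [Field F] [NumberField F] (φ : F →+* AlgebraicClosure ℚ) (y : F),
      ht (φ y) = Height.logHeight₁ y / Module.finrank ℚ F) ∧
    ∀ (p : ℕ) [Fact p.Prime] (L : PadicAlgCl p → PadicAlgCl p), IsIwasawaLog p L →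
      ∀ em : AlgebraicClosure ℚ →+* PadicAlgCl p,
    -- (1)
    (∀ X : Submodule (Alg p) (PadicAlgCl p), X.FG →
      ∀ K : IntermediateField ℚ (AlgebraicClosure ℚ), FiniteDimensional ℚ K → ∀ d : ℕ, 1 ≤ d →
      ∀ (k : ℕ) (A B : Fin k → Polynomial (AlgebraicClosure ℚ)),
      (∀ j, A j ≠ 0) → (∀ j, B j ≠ 0) → Separate A B → ∀ N : ℕ,
      (∀ j, N ≤ (A j).natDegree + (B j).natDegree) → ∀ κ : ℝ,
      {z | z ∈ DegLe K d ∧ (κ < ((N : ℝ) - 2 * d) / 2 ∨
          (IsIntegral ℤ z ∧ κ < ((N : ℝ) - (2 * d - 1)) / 2)) ∧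
        (∀ j, (A j).eval z ≠ 0 ∧ (B j).eval z ≠ 0) ∧ ∃ δ : Fin k → AlgebraicClosure ℚ,
        (∀ j, δ j ≠ 0 ∧ ht (δ j) ≤ κ * ht z) ∧
        ¬ Strong L X (fun j => em (δ j * ((A j).eval z / (B j).eval z)))}.Finite) ∧
    -- (2)
    (∀ X : Submodule (Alg p) (PadicAlgCl p), X.FG →
      ∀ K : IntermediateField ℚ (AlgebraicClosure ℚ), FiniteDimensional ℚ K → ∀ d : ℕ, 1 ≤ d →
      ∀ A B : Polynomial (AlgebraicClosure ℚ), A ≠ 0 → B ≠ 0 → IsCoprime A B →
      ∀ m m' : ℕ, 1 ≤ m → 1 ≤ m' → ZerosLe A B m → ZerosLe B A m' → ∀ κ : ℝ,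
      κ < max (A.natDegree : ℝ) B.natDegree - 2 * d * (m * m' / (m + m')) →
      {z | z ∈ DegLe K d ∧ A.eval z ≠ 0 ∧ B.eval z ≠ 0 ∧ ∃ δ : AlgebraicClosure ℚ, δ ≠ 0 ∧
        ht δ ≤ κ * ht z ∧
        ¬ Strong L X (fun _ : Fin 1 => em (δ * (A.eval z / B.eval z)))}.Finite) ∧
    -- (3)
    (∀ X : Submodule (Alg p) (PadicAlgCl p), X.FG →
      ∀ K : IntermediateField ℚ (AlgebraicClosure ℚ), FiniteDimensional ℚ K → ∀ d : ℕ, 1 ≤ d →
      ∀ A : Polynomial (AlgebraicClosure ℚ), A ≠ 0 → ∀ m : ℕ, 1 ≤ m →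
      (∀ a, A.rootMultiplicity a ≤ m) → ∀ κ : ℝ, κ < A.natDegree - (2 * d - 1) * m →
      {z | z ∈ DegLe K d ∧ IsIntegral ℤ z ∧ A.eval z ≠ 0 ∧ ∃ δ : AlgebraicClosure ℚ, δ ≠ 0 ∧
        ht δ ≤ κ * ht z ∧ ¬ Strong L X (fun _ : Fin 1 => em (δ * A.eval z))}.Finite) ∧
    -- (4)
    (∀ X : Submodule (Alg p) (PadicAlgCl p), X.FG → ∀ (k : ℕ) (κ : ℝ), κ < k - 1 →
      {n : ℕ | ∃ δ : AlgebraicClosure ℚ, δ ≠ 0 ∧ ht δ ≤ κ * Real.log n ∧
        ¬ Strong L X (fun _ : Fin 1 => em (δ * ∏ i ∈ Finset.range k,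
          ((n : AlgebraicClosure ℚ) + i)))}.Finite) ∧
    -- (5)
    (∀ t : PadicAlgCl p, Transcendental ℚ t → ∀ k : ℕ, 1 ≤ k → ∀ κ : ℝ, (k : ℝ) - 1 < κ →
      {n : ℕ | ∃ δ : AlgebraicClosure ℚ, δ ≠ 0 ∧ ht δ ≤ κ * Real.log n ∧
        ¬ Strong L (Submodule.span (Alg p) {1, t, t ^ 2}) (fun _ : Fin 1 =>
          em (δ * ∏ i ∈ Finset.range k, ((n : AlgebraicClosure ℚ) + i)))}.Infinite) := by
  refine ⟨fun F _ _ φ y => ht_field F φ y, fun p _ L hL em => ⟨?_, ?_, ?_, ?_, ?_⟩⟩
  · intro X hX K hK d hd k A B hA hB hAB N hN κ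
    exact near_multi hL em X hX K d hd A B hA hB hAB N hN κ
  · intro X hX K hK d hd A B hA hB hAB m m' hm0 hm0' hm hm' κ hκ
    exact near_one hL em X hX K d hd A B hA hB hAB m m' hm0 hm0' hm hm' κ hκ
  · intro X hX K hK d hd A hA m hm0 hm κ hκ
    exact near_int hL em X hX K d hd A hA m hm0 hm κ hκ
  · intro X hX k κ hκ
    exact consecutive hL em X hX k κ hκ
  · intro t htr k hk κ hκ
    exact sharp hL em htr k hk κ hκ

end Pool.Agent.Results.MP_dd0d16_nt.NearValuesOfFunctions
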